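import Pool.Agent.C4F.StmtsM

/-!
# C4F, row TAD (adjacency), by helper76
-/

set_option autoImplicit false

namespace Pool.Agent.C4F.H76

open Pool.Agent.C4F
open Pool.Agent.Helper53_CookLevin (PGen)
open Pool.Agent.Helper53_Chan (Test)

theorem tad (K : Kit) (tnm : TnmStmt) (ton : TonStmt) (tgt : TgtStmt) (tbd : TbdStmt) :
    TadStmt := by
  intro r e i x j y hi hx hj hy
  obtain ⟨hq, -, -, -, -, -, -, hD⟩ := tnm r e
  have hq2 : NumF r (fun ρ => (dat (At e ρ)).q ^ 2) := by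
    have h1 := K.mul r _ _ hq hq
    simp only [pow_two]
    exact h1
  have hkc : ∀ a : (Fin r → List Lt) → ℕ, NumF r a →
      NumF r (fun ρ => (dat (At e ρ)).kc (a ρ)) := fun a ha => (hD a ha).2.2.2.1
  have hca : ∀ a : (Fin r → List Lt) → ℕ, NumF r a →
      NumF r (fun ρ => (dat (At e ρ)).ca (a ρ)) := fun a ha => (hD a ha).2.2.2.2.1
  have hcb : ∀ a : (Fin r → List Lt) → ℕ, NumF r a →
      NumF r (fun ρ => (dat (At e ρ)).cb (a ρ)) := fun a ha => (hD a ha).2.2.2.2.2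
  have hcyc : ∀ a b : (Fin r → List Lt) → ℕ, NumF r a → NumF r b →
      Test r (fun ρ => (dat (At e ρ)).Cyc (a ρ) (b ρ)) := by
    intro a b ha hb
    unfold Dat.Cyc
    refine K.and r _ _ (K.eq r _ _ (K.mod r _ _ ha hq2) (K.mod r _ _ hb hq2)) ?_
    refine K.and r _ _ (K.lt r _ _ (hkc a ha) (K.cst r 10)) ?_
    refine K.and r _ _ (K.lt r _ _ (hkc b hb) (K.cst r 10)) ?_
    refine K.and r _ _ (K.eq r _ _ (K.div r _ _ (hkc a ha) (K.cst r 5))
      (K.div r _ _ (hkc b hb) (K.cst r 5))) ?_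
    exact K.eq r _ _ (K.mod r _ _ (hkc b hb) (K.cst r 5))
      (K.mod r _ _ (K.add r _ _ (hkc a ha) (K.cst r 1)) (K.cst r 5))
  have hpl : ∀ a b : (Fin r → List Lt) → ℕ, NumF r a → NumF r b →
      Test r (fun ρ => (dat (At e ρ)).Pl (a ρ) (b ρ)) := by
    intro a b ha hb
    unfold Dat.Pl
    refine K.and r _ _ (K.eq r _ _ (hkc a ha) (K.cst r 0)) ?_
    refine K.and r _ _ (K.eq r _ _ (hkc b hb) (K.cst r 5)) ?_
    exact (ton r e _ _ _ _ (hca b hb) (hcb b hb) (hca a ha) (hcb a ha)).1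
  have hmi : ∀ a b : (Fin r → List Lt) → ℕ, NumF r a → NumF r b →
      Test r (fun ρ => (dat (At e ρ)).Mi (a ρ) (b ρ)) := by
    intro a b ha hb
    unfold Dat.Mi
    refine K.and r _ _ (K.eq r _ _ (hkc a ha) (K.cst r 7)) ?_
    refine K.and r _ _ (K.eq r _ _ (hkc b hb) (K.cst r 2)) ?_
    exact (ton r e _ _ _ _ (hca a ha) (hcb a ha) (hca b hb) (hcb b hb)).1
  have hE : ∀ a s b t : (Fin r → List Lt) → ℕ, NumF r a → NumF r s → NumF r b → NumF r t →
      Test r (fun ρ => (dat (At e ρ)).E (bw (At e ρ)) (a ρ) (s ρ) (b ρ) (t ρ)) := by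
    intro a s b t ha hs hb ht
    unfold Dat.E
    refine K.or r _ _ (K.and r _ _ (hcyc a b ha hb) (K.lt r _ _ ht hs)) ?_
    exact K.and r _ _ (K.or r _ _ (hpl a b ha hb) (hmi a b ha hb))
      (tgt r e a s b t ha hs hb ht)
  unfold Dat.adj
  refine K.and r _ _ (K.not r _ (K.and r _ _ (K.eq r _ _ hi hj) (K.eq r _ _ hx hy))) ?_
  refine K.or r _ _ (K.eq r _ _ hi hj) ?_
  refine K.or r _ _ (tbd r e i x hi hx) ?_
  refine K.or r _ _ (tbd r e j y hj hy) ?_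
  exact K.or r _ _ (hE i x j y hi hx hj hy) (hE j y i x hj hy hi hx)

end Pool.Agent.C4F.H76
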